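import Pool.Agent.Helper14_DC.PStep

set_option autoImplicit false

/-! MODULES PCHAIN and UCHAIN. -/

namespace Pool.Agent.Helper95_DC

open scoped commutatorElement

namespace Chain

theorem exists_hom_ne_one {G : Type} [CommGroup G] (p : ℕ) [hp : Fact p.Prime]
    (hexp : ∀ a : G, a ^ p = 1) {g : G} (hg : g ≠ 1) : ∃ ψ : G →* Multiplicative (ZMod p),
      ψ g ≠ 1 := by
  letI : Module (ZMod p) (Additive G) :=
    AddCommGroup.zmodModule (n := p) (fun x => hexp (Additive.toMul x))
  by_contra hcon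
  push Not at hcon
  apply hg
  have h1 : ∀ φ : Module.Dual (ZMod p) (Additive G), φ (Additive.ofMul g) = 0 := by
    intro φ
    exact hcon (AddMonoidHom.toMultiplicativeRight φ.toAddMonoidHom)
  exact (Module.forall_dual_apply_eq_zero_iff (ZMod p) (Additive.ofMul g)).1 h1

/-- Characters of an elementary abelian quotient. -/
theorem exists_char {F : Type} [Group F] (p : ℕ) [hp : Fact p.Prime] {P Q : Subgroup F}
    (hQP : Q ≤ P) (hcomm : ∀ x ∈ P, ∀ y ∈ P, ⁅x, y⁆ ∈ Q) (hpow : ∀ x ∈ P, x ^ p ∈ Q)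
    (hfg : ∃ S : Set F, S.Finite ∧ Subgroup.closure S ⊔ Q = P) :
    (∃ k, Q.relIndex P = p ^ k) ∧ (Q ≠ P → ∃ χ : P →* Multiplicative (ZMod p), χ ≠ 1 ∧
      Q ≤ χ.ker.map P.subtype ∧ Q.relIndex P = Q.relIndex (χ.ker.map P.subtype) * p) := by
  classical
  set Qs : Subgroup P := Q.subgroupOf P with hQs
  have hnorm : Qs.Normal := by
    refine ⟨fun n hn g => ?_⟩
    rw [hQs, Subgroup.mem_subgroupOf] at hn ⊢
    have h1 := hcomm g.1 g.2 n.1 n.2
    have h2 := Q.mul_mem h1 hn
    have e : ⁅(g : F), (n : F)⁆ * n = ((g * n * g⁻¹ : P) : F) := by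
      simp [commutatorElement_def]
    rwa [e] at h2
  letI cg : CommGroup (P ⧸ Qs) :=
    { (inferInstance : Group (P ⧸ Qs)) with
      mul_comm := by
        intro a b
        induction a using QuotientGroup.induction_on with
        | H a =>
        induction b using QuotientGroup.induction_on with
        | H b =>
        rw [← QuotientGroup.mk_mul, ← QuotientGroup.mk_mul, QuotientGroup.eq, hQs,
          Subgroup.mem_subgroupOf]
        have h1 := hcomm _ (P.inv_mem b.2) _ (P.inv_mem a.2)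
        have e : ⁅(b : F)⁻¹, (a : F)⁻¹⁆ = (((a * b)⁻¹ * (b * a) : P) : F) := by
          simp [commutatorElement_def, mul_assoc]
        rwa [e] at h1 }
  have hexp : ∀ a : P ⧸ Qs, a ^ p = 1 := by
    intro a
    induction a using QuotientGroup.induction_on with
    | H a =>
    rw [← QuotientGroup.mk_pow, QuotientGroup.eq_one_iff, hQs, Subgroup.mem_subgroupOf]
    exact hpow _ a.2
  have htors : ∀ a : P ⧸ Qs, IsOfFinOrder a := fun a =>
    isOfFinOrder_iff_pow_eq_one.2 ⟨p, hp.out.pos, hexp a⟩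
  have hFG : Group.FG (P ⧸ Qs) := by
    obtain ⟨S, hSfin, hSP⟩ := hfg
    rw [Group.fg_iff]
    refine ⟨(fun g : P => (g : P ⧸ Qs)) '' ((fun g : P => (g : F)) ⁻¹' S), ?_, ?_⟩
    · rw [eq_top_iff]
      intro a _
      induction a using QuotientGroup.induction_on with
      | H a =>
      set T := Subgroup.closure ((fun g : P => (g : P ⧸ Qs)) '' ((fun g : P => (g : F)) ⁻¹' S))
      have hle : Subgroup.closure S ⊔ Q ≤ (T.comap (QuotientGroup.mk' Qs)).map P.subtype := by
        refine sup_le ?_ ?_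
        · rw [Subgroup.closure_le]
          intro s hs
          have hsP : s ∈ P := by
            rw [← hSP]
            exact (le_sup_left : Subgroup.closure S ≤ _) (Subgroup.subset_closure hs)
          refine ⟨⟨s, hsP⟩, ?_, rfl⟩
          rw [SetLike.mem_coe, Subgroup.mem_comap]
          exact Subgroup.subset_closure ⟨⟨s, hsP⟩, hs, rfl⟩
        · intro q hq
          refine ⟨⟨q, hQP hq⟩, ?_, rfl⟩
          rw [SetLike.mem_coe, Subgroup.mem_comap, QuotientGroup.mk'_apply,
            (QuotientGroup.eq_one_iff _).2 (by rw [hQs, Subgroup.mem_subgroupOf]; exact hq)]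
          exact T.one_mem
      rw [hSP] at hle
      obtain ⟨b, hb, hba⟩ := hle a.2
      have : b = a := Subtype.ext hba
      subst this
      exact hb
    · exact ((hSfin.preimage (Subtype.val_injective.injOn)).image _)
  have hfin : Finite (P ⧸ Qs) := CommGroup.finite_of_fg_isMulTorsion _ htors
  have hcard : ∃ k, Nat.card (P ⧸ Qs) = p ^ k :=
    IsPGroup.iff_card.mp (fun a => ⟨1, by simpa using hexp a⟩)
  have hrel : Q.relIndex P = Nat.card (P ⧸ Qs) := rfl
  refine ⟨by rw [hrel]; exact hcard, ?_⟩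
  intro hne
  obtain ⟨g, hgP, hgQ⟩ : ∃ g ∈ P, g ∉ Q := by
    by_contra hcon
    push Not at hcon
    exact hne (le_antisymm hQP hcon)
  have hg0 : ((⟨g, hgP⟩ : P) : P ⧸ Qs) ≠ 1 := by
    intro h1
    rw [QuotientGroup.eq_one_iff, hQs, Subgroup.mem_subgroupOf] at h1
    exact hgQ h1
  obtain ⟨ψ, hψ⟩ := exists_hom_ne_one p hexp hg0
  let χ : P →* Multiplicative (ZMod p) := ψ.comp (QuotientGroup.mk' Qs)
  have hχg : χ ⟨g, hgP⟩ ≠ 1 := fun h => hψ h
  have hχ : χ ≠ 1 := by
    intro h
    apply hχg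
    rw [h]
    rfl
  have hQker : Q ≤ χ.ker.map P.subtype := by
    intro q hq
    refine ⟨⟨q, hQP hq⟩, ?_, rfl⟩
    rw [SetLike.mem_coe, MonoidHom.mem_ker]
    show ψ ((⟨q, hQP hq⟩ : P) : P ⧸ Qs) = 1
    rw [(QuotientGroup.eq_one_iff _).2 (by rw [hQs, Subgroup.mem_subgroupOf]; exact hq), map_one]
  refine ⟨χ, hχ, hQker, ?_⟩
  rw [← Subgroup.relIndex_mul_relIndex Q (χ.ker.map P.subtype) P hQker (Subgroup.map_subtype_le _)]
  congr 1
  have h1 : (χ.ker.map P.subtype).relIndex P = χ.ker.index := by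
    have := Subgroup.relIndex_map_map_of_injective χ.ker ⊤ P.subtype_injective
    rw [← MonoidHom.range_eq_map, Subgroup.range_subtype] at this
    rw [this, Subgroup.relIndex_top_right]
  rw [h1, Subgroup.index_ker]
  have hcardZ : Nat.card (Multiplicative (ZMod p)) = p := by
    rw [Nat.card_congr Multiplicative.toAdd, Nat.card_zmod]
  haveI : Fact (Nat.card (Multiplicative (ZMod p))).Prime := ⟨by rw [hcardZ]; exact hp.out⟩
  rcases χ.range.eq_bot_or_eq_top_of_prime_card with h | h
  · exfalso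
    apply hχg
    have : χ ⟨g, hgP⟩ ∈ χ.range := ⟨_, rfl⟩
    rw [h] at this
    exact Subgroup.mem_bot.1 this
  · rw [h, Subgroup.card_top, hcardZ]

end Chain

open Chain

theorem pchain : PChainStatement := by
  intro p hp t ht0 ht1 F _ N P Fil ω m hm hN hNP hFil hPm hG
  -- strong induction on the index
  have key : ∀ n : ℕ, ∀ (P : Subgroup F) (ω : ℝ), (P ⊓ Fil (m + 1)).relIndex P = n → N ≤ P →
      P ≤ Fil m → Gen t N P Fil ω → ∃ r : ℕ, (P ⊓ Fil (m + 1)).relIndex P = p ^ r ∧
        Gen t N (P ⊓ Fil (m + 1)) Fil (1 + (ω - 1) * qf p t m ^ r) := by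
    intro n
    induction n using Nat.strong_induction_on with
    | _ n ih =>
    intro P ω hn hNP hPm hG
    have hcomm : ∀ x ∈ P, ∀ y ∈ P, ⁅x, y⁆ ∈ P ⊓ Fil (m + 1) := by
      intro x hx y hy
      refine ⟨?_, hFil.anti (by omega : m + 1 ≤ m + m) (hFil.comm _ _ _ _ (hPm hx) (hPm hy))⟩
      rw [commutatorElement_def]
      exact P.mul_mem (P.mul_mem (P.mul_mem hx hy) (P.inv_mem hx)) (P.inv_mem hy)
    have hpow : ∀ x ∈ P, x ^ p ∈ P ⊓ Fil (m + 1) := by
      intro x hx
      refine ⟨P.pow_mem hx p, hFil.anti ?_ (hFil.pow _ _ (hPm hx))⟩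
      have := hp.out.two_le
      nlinarith
    have hfg : ∃ S : Set F, S.Finite ∧ Subgroup.closure S ⊔ (P ⊓ Fil (m + 1)) = P := by
      obtain ⟨ι, _, s, e, hs, hgen, hsum⟩ := hG
      refine ⟨Set.range s, Set.finite_range s, le_antisymm ?_ ?_⟩
      · refine sup_le ?_ inf_le_left
        conv_rhs => rw [← hgen]
        exact le_sup_left
      · conv_lhs => rw [← hgen]
        exact sup_le_sup_left (le_inf hNP (hFil.N_le _)) _
    obtain ⟨⟨k, hk⟩, hchar⟩ := exists_char p (inf_le_left : P ⊓ Fil (m + 1) ≤ P) hcomm hpow hfg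
    by_cases hQP : P ⊓ Fil (m + 1) = P
    · refine ⟨0, ?_, ?_⟩
      · rw [hQP, Subgroup.relIndex_self, pow_zero]
      · rw [hQP, pow_zero, mul_one, add_sub_cancel]
        exact hG
    · obtain ⟨χ, hχ, hQker, hrel⟩ := hchar hQP
      set P' := χ.ker.map P.subtype with hP'
      have hP'P : P' ≤ P := Subgroup.map_subtype_le _
      have hNP' : N ≤ P' := (le_inf hNP (hFil.N_le _)).trans hQker
      have hG' := pstep p t ht0 ht1 F N P P' Fil ω m χ hN hFil hG hNP' hP' hχ hPm hQker
      have hQ' : P' ⊓ Fil (m + 1) = P ⊓ Fil (m + 1) :=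
        le_antisymm (inf_le_inf_right _ hP'P) (le_inf hQker inf_le_right)
      have hlt : (P' ⊓ Fil (m + 1)).relIndex P' < n := by
        rw [hQ', ← hn, hrel]
        have h0 : (P ⊓ Fil (m + 1)).relIndex P' ≠ 0 := by
          intro h0
          rw [h0, zero_mul, hk] at hrel
          exact (pow_ne_zero k hp.out.ne_zero) hrel
        have := hp.out.two_le
        have h1 : 0 < (P ⊓ Fil (m + 1)).relIndex P' := Nat.pos_of_ne_zero h0
        nlinarith
      obtain ⟨r, hr, hGr⟩ := ih _ hlt P' _ rfl hNP' (hP'P.trans hPm) hG'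
      rw [hQ'] at hr hGr
      refine ⟨r + 1, ?_, ?_⟩
      · rw [hrel, hr, pow_succ]
      · convert hGr using 1
        rw [pow_succ]
        ring
  exact key _ P ω rfl hNP hPm hG

theorem uchain (hstep : StepStatement) : UChainStatement := by
  intro p hp t ht0 ht1 F _ N V Fil b m hm hN hFil _ hVm hmV hPres
  have key : ∀ n : ℕ, ∀ (V : Subgroup F) (b : ℝ), (Fil (m + 1)).relIndex V = n →
      V ≤ Fil m → Fil (m + 1) ≤ V → Pres p t N V Fil b → ∃ n : ℕ, (Fil (m + 1)).relIndex V = p ^ n ∧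
        Pres p t N (Fil (m + 1)) Fil (b * qf p t m ^ n) := by
    intro n
    induction n using Nat.strong_induction_on with
    | _ n ih =>
    intro V b hn hVm hmV hPres
    have hcomm : ∀ x ∈ V, ∀ y ∈ V, ⁅x, y⁆ ∈ Fil (m + 1) := by
      intro x hx y hy
      exact hFil.anti (by omega : m + 1 ≤ m + m) (hFil.comm _ _ _ _ (hVm hx) (hVm hy))
    have hpow : ∀ x ∈ V, x ^ p ∈ Fil (m + 1) := by
      intro x hx
      refine hFil.anti ?_ (hFil.pow _ _ (hVm hx))
      have := hp.out.two_le
      nlinarith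
    have hfg : ∃ S : Set F, S.Finite ∧ Subgroup.closure S ⊔ Fil (m + 1) = V := by
      obtain ⟨Y, _, _, d, φ, ι, R, e, hd, hfil, hker, hR, hsum, hb⟩ := hPres
      have h0 := hfil 0
      rw [D_zero, inf_eq_left.2 (hVm.trans (hFil.anti (Nat.zero_le m)))] at h0
      have h1 : (⊤ : Subgroup (FreeGroup Y)).map φ = Subgroup.closure (Set.range (fun y => φ (FreeGroup.of y))) := by
        rw [← FreeGroup.closure_range_of, MonoidHom.map_closure, ← Set.range_comp]
        rfl
      rw [h1] at h0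
      refine ⟨_, Set.finite_range (fun y => φ (FreeGroup.of y)), le_antisymm ?_ ?_⟩
      · refine sup_le ?_ hmV
        conv_rhs => rw [← h0]
        exact le_sup_left
      · conv_lhs => rw [← h0]
        exact sup_le_sup_left (hFil.N_le _) _
    obtain ⟨⟨k, hk⟩, hchar⟩ := exists_char p hmV hcomm hpow hfg
    by_cases hQV : Fil (m + 1) = V
    · refine ⟨0, ?_, ?_⟩
      · rw [hQV, Subgroup.relIndex_self, pow_zero]
      · rw [hQV, pow_zero, mul_one]
        exact hPres
    · obtain ⟨χ, hχ, hQker, hrel⟩ := hchar hQV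
      set V' := χ.ker.map V.subtype with hV'
      have hV'V : V' ≤ V := Subgroup.map_subtype_le _
      have hNV' : N ≤ V' := (hFil.N_le _).trans hQker
      have hnot : ¬ V ⊓ Fil m ≤ V' := by
        rw [inf_eq_left.2 hVm]
        intro hle
        apply hχ
        ext g
        obtain ⟨g', hg', hgg⟩ := hle g.2
        have : g' = g := Subtype.ext hgg
        subst this
        exact congrArg _ hg'
      have hPres' := hstep p t ht0 ht1 F N V V' Fil b m χ hN hPres hNV' hV' hnot
        (inf_le_right.trans hQker)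
      have hlt : (Fil (m + 1)).relIndex V' < n := by
        rw [← hn, hrel]
        have h0 : (Fil (m + 1)).relIndex V' ≠ 0 := by
          intro h0
          rw [h0, zero_mul, hk] at hrel
          exact (pow_ne_zero k hp.out.ne_zero) hrel
        have := hp.out.two_le
        have h1 : 0 < (Fil (m + 1)).relIndex V' := Nat.pos_of_ne_zero h0
        nlinarith
      obtain ⟨r, hr, hGr⟩ := ih _ hlt V' _ rfl (hV'V.trans hVm) hQker hPres'
      refine ⟨r + 1, ?_, ?_⟩
      · rw [hrel, hr, pow_succ]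
      · convert hGr using 1
        rw [pow_succ]
        ring
  exact key _ V b rfl hVm hmV hPres

end Pool.Agent.Helper95_DC
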