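import Pool.Agent.Helper95_DC.Pres

set_option autoImplicit false

/-! MODULE PSTEP: the weighted Schreier formula for generating families. -/

namespace Pool.Agent.Helper95_DC

open scoped commutatorElement

namespace PStep

variable {F : Type} [Group F]

/-- Iterated commutators with `x`. -/
def cm (x y : F) : ℕ → F
  | 0 => y
  | k + 1 => ⁅x, cm x y k⁆

theorem conj_cm (x y : F) (k : ℕ) : x * cm x y k * x⁻¹ = cm x y (k + 1) * cm x y k := by
  simp [cm, commutatorElement_def]

theorem conj_pow_cm_mem {x y : F} {H : Subgroup F} {p : ℕ} (h : ∀ k < p, cm x y k ∈ H) (i : ℕ) :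
    ∀ k, k + i < p → x ^ i * cm x y k * (x ^ i)⁻¹ ∈ H := by
  induction i with
  | zero =>
    intro k hk
    simpa using h k (by omega)
  | succ i ih =>
    intro k hk
    have h1 := ih (k + 1) (by omega)
    have h2 := ih k (by omega)
    have : x ^ (i + 1) * cm x y k * (x ^ (i + 1))⁻¹ =
        (x ^ i * cm x y (k + 1) * (x ^ i)⁻¹) * (x ^ i * cm x y k * (x ^ i)⁻¹) := by
      have e1 : x ^ (i + 1) * cm x y k * (x ^ (i + 1))⁻¹ =
          x ^ i * (x * cm x y k * x⁻¹) * (x ^ i)⁻¹ := by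
        rw [pow_succ, mul_inv_rev]
        simp only [mul_assoc]
      rw [e1, conj_cm]
      group
    rw [this]
    exact H.mul_mem h1 h2

theorem conj_zpow_mem {x y : F} {H : Subgroup F} {p : ℕ} (hp : 0 < p)
    (h : ∀ k < p, cm x y k ∈ H) (hx : x ^ p ∈ H) (i : ℤ) : x ^ i * y * (x ^ i)⁻¹ ∈ H := by
  have hp' : (0 : ℤ) < p := by exact_mod_cast hp
  have h1 := Int.emod_nonneg i hp'.ne'
  have h2 := Int.emod_lt_of_pos i hp'
  obtain ⟨r, hr⟩ := Int.eq_ofNat_of_zero_le h1
  have h3 := conj_pow_cm_mem h r 0 (by omega)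
  have e : i = p * (i / p) + r := by
    rw [← hr]
    exact (Int.mul_ediv_add_emod i p).symm
  have e2 : x ^ i = (x ^ p) ^ (i / p) * x ^ r := by
    conv_lhs => rw [e]
    rw [zpow_add, zpow_mul, zpow_natCast, zpow_natCast]
  have : x ^ i * y * (x ^ i)⁻¹ =
      (x ^ p) ^ (i / p) * (x ^ r * cm x y 0 * (x ^ r)⁻¹) * ((x ^ p) ^ (i / p))⁻¹ := by
    rw [e2, mul_inv_rev]
    simp only [cm, mul_assoc]
  rw [this]
  have h4 : (x ^ p) ^ (i / p) ∈ H := H.zpow_mem hx _
  exact H.mul_mem (H.mul_mem h4 h3) (H.inv_mem h4)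

/-- The subgroup generated by all conjugates under powers of `x`, by `x ^ p` and by `N`. -/
def conjGrp (x : F) (p : ℕ) {J : Type} (y : J → F) (N : Subgroup F) : Subgroup F :=
  Subgroup.closure ({g | ∃ (j : J) (i : ℤ), g = x ^ i * y j * (x ^ i)⁻¹} ∪ {x ^ p}) ⊔ N

theorem conj_mem_conjGrp {x : F} {p : ℕ} {J : Type} {y : J → F} {N : Subgroup F} (hN : N.Normal)
    {g : F} (hg : g ∈ conjGrp x p y N) (n : ℤ) : x ^ n * g * (x ^ n)⁻¹ ∈ conjGrp x p y N := by
  have hle : conjGrp x p y N ≤ (conjGrp x p y N).comap (MulAut.conj (x ^ n)).toMonoidHom := by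
    conv_lhs => unfold conjGrp
    refine sup_le ?_ ?_
    · rw [Subgroup.closure_le]
      rintro g (⟨j, i, rfl⟩ | hg)
      · rw [SetLike.mem_coe, Subgroup.mem_comap]
        refine (le_sup_left : _ ≤ conjGrp x p y N) (Subgroup.subset_closure (Or.inl ⟨j, n + i, ?_⟩))
        simp only [MulEquiv.toMonoidHom_eq_coe, MonoidHom.coe_coe, MulAut.conj_apply]
        rw [zpow_add, mul_inv_rev]
        simp only [mul_assoc]
      · rw [Set.mem_singleton_iff] at hg
        subst hg
        rw [SetLike.mem_coe, Subgroup.mem_comap]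
        refine (le_sup_left : _ ≤ conjGrp x p y N) (Subgroup.subset_closure (Or.inr ?_))
        simp only [MulEquiv.toMonoidHom_eq_coe, MonoidHom.coe_coe, MulAut.conj_apply]
        rw [Set.mem_singleton_iff]
        have : Commute (x ^ n) (x ^ p) := (Commute.refl x).zpow_left n |>.pow_right p
        rw [this.eq, mul_inv_cancel_right]
    · intro g hg
      rw [Subgroup.mem_comap]
      refine (le_sup_right : _ ≤ conjGrp x p y N) ?_
      exact hN.conj_mem g hg (x ^ n)
  exact hle hg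

/-- The elements `h * x ^ n` form a subgroup. -/
theorem exists_eq_mul_zpow {x : F} {p : ℕ} {J : Type} {y : J → F} {N : Subgroup F}
    (hN : N.Normal) {g : F}
    (hg : g ∈ Subgroup.closure (Set.range y ∪ {x}) ⊔ N) :
    ∃ h ∈ conjGrp x p y N, ∃ n : ℤ, g = h * x ^ n := by
  set H := conjGrp x p y N with hH
  let L : Subgroup F :=
    { carrier := {g | ∃ h ∈ H, ∃ n : ℤ, g = h * x ^ n}
      mul_mem' := by
        rintro a b ⟨h, hh, n, rfl⟩ ⟨h', hh', n', rfl⟩
        refine ⟨h * (x ^ n * h' * (x ^ n)⁻¹), H.mul_mem hh (conj_mem_conjGrp hN hh' n), n + n', ?_⟩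
        rw [zpow_add]
        group
      one_mem' := ⟨1, H.one_mem, 0, by simp⟩
      inv_mem' := by
        rintro a ⟨h, hh, n, rfl⟩
        refine ⟨x ^ (-n) * h⁻¹ * (x ^ (-n))⁻¹, conj_mem_conjGrp hN (H.inv_mem hh) (-n), -n, ?_⟩
        group }
  have hle : Subgroup.closure (Set.range y ∪ {x}) ⊔ N ≤ L := by
    refine sup_le ?_ ?_
    · rw [Subgroup.closure_le]
      rintro g (⟨j, rfl⟩ | hg)
      · refine ⟨y j, ?_, 0, by simp⟩
        refine (le_sup_left : _ ≤ conjGrp x p y N) (Subgroup.subset_closure (Or.inl ⟨j, 0, by simp⟩))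
      · rw [Set.mem_singleton_iff] at hg
        subst hg
        exact ⟨1, H.one_mem, 1, by simp⟩
    · intro g hg
      exact ⟨g, (le_sup_right : _ ≤ conjGrp x p y N) hg, 0, by simp⟩
  exact hle hg

theorem exists_zpow_mul_eq_one {p : ℕ} [Fact p.Prime] (a b : Multiplicative (ZMod p)) (hb : b ≠ 1) :
    ∃ n : ℕ, a * b ^ n = 1 := by
  refine ⟨(-(Multiplicative.toAdd a) * (Multiplicative.toAdd b)⁻¹).val, ?_⟩
  apply Multiplicative.toAdd.injective
  have hb' : Multiplicative.toAdd b ≠ 0 := hb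
  rw [toAdd_mul, toAdd_pow, nsmul_eq_mul, ZMod.natCast_val, ZMod.cast_id, toAdd_one]
  field_simp
  ring

theorem pow_eq_one_mz {p : ℕ} (a : Multiplicative (ZMod p)) : a ^ p = 1 := by
  apply Multiplicative.toAdd.injective
  rw [toAdd_pow, toAdd_one, nsmul_eq_mul, CharP.cast_eq_zero, zero_mul]

theorem zpow_eq_one_mz {p : ℕ} [Fact p.Prime] {a : Multiplicative (ZMod p)} (ha : a ≠ 1) {n : ℤ}
    (h : a ^ n = 1) : (p : ℤ) ∣ n := by
  have h1 : (n : ZMod p) * Multiplicative.toAdd a = 0 := by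
    have := congrArg Multiplicative.toAdd h
    rwa [toAdd_zpow, toAdd_one, zsmul_eq_mul] at this
  have ha' : Multiplicative.toAdd a ≠ 0 := ha
  have h2 : (n : ZMod p) = 0 := (mul_eq_zero.1 h1).resolve_right ha'
  exact (ZMod.intCast_zmod_eq_zero_iff_dvd n p).1 h2

theorem qf_mul (p : ℕ) (t : ℝ) (α : ℕ) : qf p t α * (1 - t ^ α) = 1 - t ^ (p * α) := by
  have : qf p t α = ∑ i ∈ Finset.range p, (t ^ α) ^ i := by
    unfold qf
    refine Finset.sum_congr rfl (fun i _ => ?_)
    rw [← pow_mul, mul_comm]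
  rw [this, geom_sum_mul_neg, ← pow_mul, mul_comm]

end PStep

open PStep

theorem pstep : PStepStatement := by
  intro p _ t ht0 ht1 F _ N P P' Fil ω α χ hN hFil hG hNP' hP' hχ hPα hPα'
  obtain ⟨ι, _, s, e, hs, hgen, hsum⟩ := hG
  classical
  have hp : 0 < p := (Fact.out : p.Prime).pos
  have hNP : N ≤ P := hgen ▸ le_sup_right
  have hsP : ∀ i, s i ∈ P := fun i => by
    rw [← hgen]
    exact (le_sup_left : Subgroup.closure (Set.range s) ≤ _) (Subgroup.subset_closure ⟨i, rfl⟩)
  have hmem : ∀ (g : F) (hg : g ∈ P), g ∈ P' ↔ χ ⟨g, hg⟩ = 1 := by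
    intro g hg
    rw [hP', Subgroup.mem_map]
    constructor
    · rintro ⟨g', hg', rfl⟩
      exact hg'
    · intro h
      exact ⟨⟨g, hg⟩, h, rfl⟩
  have hP'P : P' ≤ P := by
    rw [hP']
    exact Subgroup.map_subtype_le _
  obtain ⟨i0, hi0⟩ : ∃ i, s i ∉ P' := by
    by_contra hcon
    push Not at hcon
    apply hχ
    ext g
    have : P ≤ P' := by
      rw [← hgen]
      refine sup_le ((Subgroup.closure_le _).2 ?_) hNP'
      rintro _ ⟨i, rfl⟩
      exact hcon i
    exact congrArg _ ((hmem g g.2).1 (this g.2))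
  set e' : ι → ℕ := fun i => max (e i) α with he'
  have hs' : ∀ i, s i ∈ Fil (e' i) := by
    intro i
    rcases max_choice (e i) α with h | h
    · rw [he']
      simp only [h]
      exact hs i
    · rw [he']
      simp only [h]
      exact hPα (hsP i)
  have hdeg : ∀ i, s i ∉ P' → e' i = α := by
    intro i hi
    by_contra hne
    have h1 : α + 1 ≤ e' i := by
      have : α ≤ e' i := le_max_right _ _
      omega
    exact hi (hPα' ⟨hsP i, hFil.anti h1 (hs' i)⟩)
  set x := s i0 with hx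
  have hxα : x ∈ Fil α := hPα (hsP i0)
  have hxP : x ∈ P := hsP i0
  have hχx : χ ⟨x, hxP⟩ ≠ 1 := fun h => hi0 ((hmem _ _).2 h)
  have hy : ∀ j, ∃ n : ℕ, s j * x ^ n ∈ P' ∧ s j * x ^ n ∈ Fil (e' j) := by
    intro j
    by_cases hj : s j ∈ P'
    · exact ⟨0, by simpa using hj, by simpa using hs' j⟩
    · obtain ⟨n, hn⟩ := exists_zpow_mul_eq_one (χ ⟨s j, hsP j⟩) (χ ⟨x, hxP⟩) hχx
      refine ⟨n, ?_, ?_⟩
      · rw [hmem _ (P.mul_mem (hsP j) (P.pow_mem hxP n)), ← hn, ← map_pow, ← map_mul]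
        rfl
      · rw [hdeg j hj]
        exact (Fil α).mul_mem (hPα (hsP j)) ((Fil α).pow_mem hxα n)
  choose n hnP' hnF using hy
  let J := {j : ι // j ≠ i0}
  let y : J → F := fun j => s j.1 * x ^ n j.1
  have hcmF : ∀ (j : J) (k : ℕ), cm x (y j) k ∈ Fil (e' j.1 + k * α) := by
    intro j k
    induction k with
    | zero => simpa [cm] using hnF j.1
    | succ k ih =>
      have := hFil.comm _ _ _ _ hxα ih
      have e1 : e' j.1 + (k + 1) * α = α + (e' j.1 + k * α) := by ring
      rw [e1]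
      exact this
  have hcmP' : ∀ (j : J) (k : ℕ), cm x (y j) k ∈ P' := by
    intro j k
    induction k with
    | zero => exact hnP' j.1
    | succ k ih =>
      have ihP := hP'P ih
      have hc : ⁅x, cm x (y j) k⁆ ∈ P := by
        rw [commutatorElement_def]
        exact P.mul_mem (P.mul_mem (P.mul_mem hxP ihP) (P.inv_mem hxP)) (P.inv_mem ihP)
      show ⁅x, cm x (y j) k⁆ ∈ P'
      rw [hmem _ hc]
      have : (⟨⁅x, cm x (y j) k⁆, hc⟩ : P) = ⁅(⟨x, hxP⟩ : P), ⟨cm x (y j) k, ihP⟩⁆ := by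
        ext
        simp [commutatorElement_def]
      rw [this, map_commutatorElement, commutatorElement_eq_one_iff_mul_comm, mul_comm]
  have hxpP' : x ^ p ∈ P' := by
    rw [hmem _ (P.pow_mem hxP p)]
    have : (⟨x ^ p, P.pow_mem hxP p⟩ : P) = ⟨x, hxP⟩ ^ p := rfl
    rw [this, map_pow, pow_eq_one_mz]
  let s' : Option (J × Fin p) → F := fun o => match o with
    | none => x ^ p
    | some (j, k) => cm x (y j) k
  let d' : Option (J × Fin p) → ℕ := fun o => match o with
    | none => p * α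
    | some (j, k) => e' j.1 + k * α
  refine ⟨Option (J × Fin p), inferInstance, s', d', ?_, ?_, ?_⟩
  · rintro (_ | ⟨j, k⟩)
    · exact hFil.pow _ _ hxα
    · exact hcmF j k
  · set H := Subgroup.closure (Set.range s') ⊔ N with hH
    have hHc : ∀ (j : J) (k : ℕ), k < p → cm x (y j) k ∈ H := fun j k hk =>
      (le_sup_left : Subgroup.closure (Set.range s') ≤ H)
        (Subgroup.subset_closure ⟨some (j, ⟨k, hk⟩), rfl⟩)
    have hHx : x ^ p ∈ H := (le_sup_left : Subgroup.closure (Set.range s') ≤ H)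
        (Subgroup.subset_closure ⟨none, rfl⟩)
    have hHN : N ≤ H := le_sup_right
    have hAH : conjGrp x p y N ≤ H := by
      unfold conjGrp
      refine sup_le ?_ hHN
      rw [Subgroup.closure_le]
      rintro g (⟨j, i, rfl⟩ | hg)
      · exact conj_zpow_mem hp (hHc j) hHx i
      · rw [Set.mem_singleton_iff] at hg
        subst hg
        exact hHx
    apply le_antisymm
    · refine sup_le ?_ hNP'
      rw [Subgroup.closure_le]
      rintro _ ⟨o, rfl⟩
      rcases o with _ | ⟨j, k⟩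
      · exact hxpP'
      · exact hcmP' j k
    · intro g hg
      have hg1 : g ∈ Subgroup.closure (Set.range y ∪ {x}) ⊔ N := by
        have hgP := hP'P hg
        rw [← hgen] at hgP
        refine (sup_le ?_ le_sup_right : Subgroup.closure (Set.range s) ⊔ N ≤ _) hgP
        rw [Subgroup.closure_le]
        rintro _ ⟨i, rfl⟩
        set M := Subgroup.closure (Set.range y ∪ {x}) ⊔ N
        have hMx : x ∈ M := (le_sup_left : Subgroup.closure (Set.range y ∪ {x}) ≤ M)
          (Subgroup.subset_closure (Or.inr rfl))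
        by_cases hi : i = i0
        · subst hi
          exact hMx
        · have hMy : y ⟨i, hi⟩ ∈ M := (le_sup_left : Subgroup.closure (Set.range y ∪ {x}) ≤ M)
            (Subgroup.subset_closure (Or.inl ⟨_, rfl⟩))
          have e1 : s i = y ⟨i, hi⟩ * (x ^ n i)⁻¹ := by
            simp [y]
          rw [e1]
          exact M.mul_mem hMy (M.inv_mem (M.pow_mem hMx _))
      obtain ⟨h, hh, k, rfl⟩ := exists_eq_mul_zpow (p := p) hN hg1
      have hhH := hAH hh
      have hHP' : conjGrp x p y N ≤ P' := by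
        refine hAH.trans ?_
        rw [hH]
        refine sup_le ?_ hNP'
        rw [Subgroup.closure_le]
        rintro _ ⟨o, rfl⟩
        rcases o with _ | ⟨j, k⟩
        · exact hxpP'
        · exact hcmP' j k
      have hxk : x ^ k ∈ P' := by
        have := P'.mul_mem (P'.inv_mem (hHP' hh)) hg
        simpa using this
      rw [hmem _ (P.zpow_mem hxP k)] at hxk
      have e2 : (⟨x ^ k, P.zpow_mem hxP k⟩ : P) = ⟨x, hxP⟩ ^ k := rfl
      rw [e2, map_zpow] at hxk
      obtain ⟨c, hc⟩ := zpow_eq_one_mz hχx hxk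
      refine H.mul_mem hhH ?_
      rw [hc, zpow_mul, zpow_natCast]
      exact H.zpow_mem hHx c
  · rw [Fintype.sum_option, Fintype.sum_prod_type]
    have hsum' : ∑ i, t ^ e' i ≤ ω := by
      refine le_trans (Finset.sum_le_sum (fun i _ => ?_)) hsum
      exact pow_le_pow_of_le_one ht0.le ht1.le (le_max_left _ _)
    have h1 := Fintype.sum_eq_add_sum_subtype_ne (fun i => t ^ e' i) i0
    have h0 : e' i0 = α := hdeg i0 hi0
    rw [h0] at h1
    have h2 : ∑ j : J, ∑ k : Fin p, t ^ d' (some (j, k)) =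
        (∑ j : J, t ^ e' j.1) * qf p t α := by
      rw [Finset.sum_mul]
      refine Finset.sum_congr rfl (fun j _ => ?_)
      unfold qf
      rw [Finset.mul_sum, ← Fin.sum_univ_eq_sum_range (fun k => t ^ e' j.1 * t ^ (k * α))]
      refine Finset.sum_congr rfl (fun k _ => ?_)
      show t ^ (e' j.1 + k * α) = _
      rw [pow_add]
    rw [h2]
    show t ^ (p * α) + _ ≤ _
    have h3 := qf_mul p t α
    have h4 : 0 ≤ qf p t α := Finset.sum_nonneg (fun i _ => pow_nonneg ht0.le _)
    have h5 : (∑ j : J, t ^ e' j.1) = ∑ i, t ^ e' i - t ^ α := by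
      rw [h1]
      ring
    rw [h5]
    nlinarith

end Pool.Agent.Helper95_DC
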